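import Pool.Agent.H61.HB.Stmts

/-!
# Row BIL of the board `hbg`: the bilinear estimate
-/

set_option autoImplicit false

namespace HB

namespace BIL

theorem sq_nonneg' (k : Z2) : 0 ≤ sq k := by unfold sq; positivity

theorem one_le (k : Z2) : 1 ≤ 1 + sq k := by have := sq_nonneg' k; linarith

theorem pos (k : Z2) : 0 < 1 + sq k := lt_of_lt_of_le one_pos (one_le k)

theorem wpos (r : ℝ) (k : Z2) : 0 < (1 + sq k) ^ r := Real.rpow_pos_of_pos (pos k) r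

theorem abs_co_le (i : Fin 2) (p : Z2) : |co i p| ≤ √(1 + sq p) := by
  apply Real.abs_le_sqrt
  unfold co sq
  split_ifs <;> nlinarith [_root_.sq_nonneg (p.1 : ℝ), _root_.sq_nonneg (p.2 : ℝ)]

theorem sq_split (k l : Z2) : 1 + sq k ≤ 4 * max (1 + sq l) (1 + sq (k - l)) := by
  have h1 : sq k ≤ 2 * sq l + 2 * sq (k - l) := by
    unfold sq
    simp only [Prod.fst_sub, Prod.snd_sub, Int.cast_sub]
    nlinarith [_root_.sq_nonneg ((l.1 : ℝ) - ((k.1 : ℝ) - l.1)),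
      _root_.sq_nonneg ((l.2 : ℝ) - ((k.2 : ℝ) - l.2))]
  have h2 := le_max_left (1 + sq l) (1 + sq (k - l))
  have h3 := le_max_right (1 + sq l) (1 + sq (k - l))
  linarith

theorem wt_le (σ : ℝ) (hσ : 0 ≤ σ) (k l : Z2) :
    (1 + sq k) ^ (σ / 2) ≤ 2 ^ σ * ((1 + sq l) ^ (σ / 2) + (1 + sq (k - l)) ^ (σ / 2)) := by
  have hσ2 : 0 ≤ σ / 2 := by linarith
  have hM : 0 ≤ max (1 + sq l) (1 + sq (k - l)) := le_trans (pos l).le (le_max_left _ _)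
  have h1 : (1 + sq k) ^ (σ / 2) ≤ (4 * max (1 + sq l) (1 + sq (k - l))) ^ (σ / 2) :=
    Real.rpow_le_rpow (pos k).le (sq_split k l) hσ2
  have h4 : (4 : ℝ) ^ (σ / 2) = 2 ^ σ := by
    have : (4 : ℝ) = 2 ^ (2 : ℝ) := by norm_num
    rw [this, ← Real.rpow_mul (by norm_num)]
    congr 1
    ring
  rw [Real.mul_rpow (by norm_num) hM, h4] at h1
  refine h1.trans ?_
  refine mul_le_mul_of_nonneg_left ?_ (Real.rpow_nonneg (by norm_num) _)
  rcases le_total (1 + sq l) (1 + sq (k - l)) with h | h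
  · rw [max_eq_right h]
    have := (wpos (σ / 2) l).le
    linarith
  · rw [max_eq_left h]
    have := (wpos (σ / 2) (k - l)).le
    linarith

theorem trm_le (u : V) (f : Z2 → ℂ) (k l : Z2) :
    ‖trm u f k l‖ ≤ (‖u 0 l‖ + ‖u 1 l‖) * (√(1 + sq (k - l)) * ‖f (k - l)‖) := by
  unfold trm
  rw [Fin.sum_univ_two]
  have h : ∀ i : Fin 2, ‖u i l * (Complex.I * (co i (k - l) : ℂ)) * f (k - l)‖ ≤
      ‖u i l‖ * (√(1 + sq (k - l)) * ‖f (k - l)‖) := by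
    intro i
    rw [norm_mul, norm_mul, norm_mul, Complex.norm_I, one_mul, Complex.norm_real,
      Real.norm_eq_abs, mul_assoc]
    refine mul_le_mul_of_nonneg_left ?_ (norm_nonneg _)
    exact mul_le_mul_of_nonneg_right (abs_co_le i _) (norm_nonneg _)
  refine (norm_add_le _ _).trans ?_
  have h0 := h 0
  have h1 := h 1
  linarith

end BIL

open BIL in
theorem bil_thm : YNGStmt → LONStmt → MMBStmt → BILStmt := by
  intro hYNG hLON hMMB s hs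
  obtain ⟨hn0, hmono, -, hN0, -, -⟩ := hMMB
  have hcW : 0 ≤ cW := tsum_nonneg (fun k => by have := pos k; positivity)
  have h2s : 0 ≤ (2 : ℝ) ^ (s - 2) := Real.rpow_nonneg (by norm_num) _
  refine ⟨4 * ((2 : ℝ) ^ (s - 2)) ^ 2 * cW + 1, by positivity, ?_⟩
  intro u f hu hf
  have hσ : 0 ≤ s - 2 := by linarith
  -- the four sequences
  set A : Z2 → ℝ := fun l => ‖u 0 l‖ + ‖u 1 l‖ with hA
  set g : Z2 → ℝ := fun p => √(1 + sq p) * ‖f p‖ with hg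
  set p₁ : Z2 → ℝ := fun l => (1 + sq l) ^ ((s - 2) / 2) * A l with hp₁
  set q₂ : Z2 → ℝ := fun p => (1 + sq p) ^ ((s - 2) / 2) * g p with hq₂
  have hA0 : ∀ l, 0 ≤ A l := fun l => by rw [hA]; positivity
  have hg0 : ∀ l, 0 ≤ g l := fun l => by rw [hg]; positivity
  have hp0 : ∀ l, 0 ≤ p₁ l := fun l => mul_nonneg (wpos _ _).le (hA0 l)
  have hq0 : ∀ l, 0 ≤ q₂ l := fun l => mul_nonneg (wpos _ _).le (hg0 l)
  -- `ℓ¹` norms
  have hL1 : Summable p₁ ∧ (∑' l, p₁ l) ^ 2 ≤ 2 * cW * nsq s u := by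
    have h0 := hLON (s - 2) (u 0) (by rw [sub_add_cancel]; exact hu 0)
    have h1 := hLON (s - 2) (u 1) (by rw [sub_add_cancel]; exact hu 1)
    rw [sub_add_cancel] at h0 h1
    have he : p₁ = fun l => (1 + sq l) ^ ((s - 2) / 2) * ‖u 0 l‖ +
        (1 + sq l) ^ ((s - 2) / 2) * ‖u 1 l‖ := by
      funext l
      simp only [hp₁, hA]
      ring
    rw [he]
    refine ⟨h0.1.add h1.1, ?_⟩
    rw [h0.1.tsum_add h1.1]
    have h2 : nsq s u = nqS s (u 0) + nqS s (u 1) := by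
      unfold nsq
      rw [Fin.sum_univ_two]
    rw [h2]
    nlinarith [_root_.sq_nonneg ((∑' l, (1 + sq l) ^ ((s - 2) / 2) * ‖u 0 l‖) -
      (∑' l, (1 + sq l) ^ ((s - 2) / 2) * ‖u 1 l‖)), h0.2, h1.2]
  have hL2 : Summable A ∧ (∑' l, A l) ^ 2 ≤ 2 * cW * nsq 2 u := by
    have hu0 : MemS (0 + 2) (u 0) := by
      rw [zero_add]
      exact (hmono 2 s (u 0) hs (hu 0)).1
    have hu1 : MemS (0 + 2) (u 1) := by
      rw [zero_add]
      exact (hmono 2 s (u 1) hs (hu 1)).1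
    have h0 := hLON 0 (u 0) hu0
    have h1 := hLON 0 (u 1) hu1
    simp only [zero_div, Real.rpow_zero, one_mul, zero_add] at h0 h1
    refine ⟨h0.1.add h1.1, ?_⟩
    rw [hA, h0.1.tsum_add h1.1]
    have h2 : nsq 2 u = nqS 2 (u 0) + nqS 2 (u 1) := by
      unfold nsq
      rw [Fin.sum_univ_two]
    rw [h2]
    nlinarith [_root_.sq_nonneg ((∑' l, ‖u 0 l‖) - (∑' l, ‖u 1 l‖)), h0.2, h1.2]
  -- `ℓ²` norms
  have hg2 : ∀ p, g p ^ 2 = (1 + sq p) ^ (1 : ℝ) * ‖f p‖ ^ 2 := by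
    intro p
    simp only [hg]
    rw [mul_pow, Real.sq_sqrt (pos p).le, Real.rpow_one]
  have hq2 : ∀ p, q₂ p ^ 2 = (1 + sq p) ^ (s - 1) * ‖f p‖ ^ 2 := by
    intro p
    simp only [hq₂]
    rw [mul_pow, hg2, ← mul_assoc]
    congr 1
    rw [← Real.rpow_natCast, ← Real.rpow_mul (pos p).le, ← Real.rpow_add (pos p)]
    congr 1
    push_cast
    ring
  have hG1 : Summable (fun p => g p ^ 2) ∧ ∑' p, g p ^ 2 ≤ nqS 2 f := by
    have h1 := hmono 2 s f hs hf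
    have h2 := hmono 1 2 f (by norm_num) h1.1
    have he : (fun p => g p ^ 2) = fun p => (1 + sq p) ^ (1 : ℝ) * ‖f p‖ ^ 2 := funext hg2
    rw [he]
    exact ⟨h2.1, h2.2⟩
  have hG2 : Summable (fun p => q₂ p ^ 2) ∧ ∑' p, q₂ p ^ 2 ≤ nqS s f := by
    have h2 := hmono (s - 1) s f (by linarith) hf
    have he : (fun p => q₂ p ^ 2) = fun p => (1 + sq p) ^ (s - 1) * ‖f p‖ ^ 2 := funext hq2
    rw [he]
    exact ⟨h2.1, h2.2⟩
  obtain ⟨hY0, -, -⟩ := hYNG A g hA0 hg0 hL2.1 hG1.1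
  obtain ⟨hY1, hY1s, hY1b⟩ := hYNG p₁ g hp0 hg0 hL1.1 hG1.1
  obtain ⟨hY2, hY2s, hY2b⟩ := hYNG A q₂ hA0 hq0 hL2.1 hG2.1
  have htr : ∀ k l, ‖trm u f k l‖ ≤ A l * g (k - l) := fun k l => trm_le u f k l
  have hsum : ∀ k, Summable fun l => ‖trm u f k l‖ := fun k =>
    Summable.of_nonneg_of_le (fun l => norm_nonneg _) (htr k) (hY0 k)
  -- pointwise bound
  have hpt : ∀ k, (1 + sq k) ^ ((s - 2) / 2) * ‖dot u f k‖ ≤
      2 ^ (s - 2) * ((∑' l, p₁ l * g (k - l)) + ∑' l, A l * q₂ (k - l)) := by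
    intro k
    have h1 : ‖dot u f k‖ ≤ ∑' l, A l * g (k - l) := by
      unfold dot
      exact (norm_tsum_le_tsum_norm (hsum k)).trans ((hsum k).tsum_le_tsum (htr k) (hY0 k))
    refine (mul_le_mul_of_nonneg_left h1 (wpos _ k).le).trans ?_
    rw [← tsum_mul_left, ← (hY1 k).tsum_add (hY2 k), ← tsum_mul_left]
    refine Summable.tsum_le_tsum (fun l => ?_) ((hY0 k).mul_left _)
      (((hY1 k).add (hY2 k)).mul_left _)
    have h2 := mul_le_mul_of_nonneg_right (wt_le (s - 2) hσ k l)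
      (mul_nonneg (hA0 l) (hg0 (k - l)))
    refine h2.trans (le_of_eq ?_)
    simp only [hp₁, hq₂]
    ring
  have hsq : ∀ k, (1 + sq k) ^ (s - 2) * ‖dot u f k‖ ^ 2 ≤
      2 * ((2 : ℝ) ^ (s - 2)) ^ 2 * ((∑' l, p₁ l * g (k - l)) ^ 2 +
        (∑' l, A l * q₂ (k - l)) ^ 2) := by
    intro k
    have h1 : (1 + sq k) ^ (s - 2) * ‖dot u f k‖ ^ 2 =
        ((1 + sq k) ^ ((s - 2) / 2) * ‖dot u f k‖) ^ 2 := by
      rw [mul_pow]
      congr 1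
      rw [← Real.rpow_natCast, ← Real.rpow_mul (pos k).le]
      congr 1
      push_cast
      ring
    rw [h1]
    have h2 := pow_le_pow_left₀ (mul_nonneg (wpos _ k).le (norm_nonneg _)) (hpt k) 2
    refine h2.trans ?_
    rw [mul_pow]
    have h3 : 0 ≤ ((2 : ℝ) ^ (s - 2)) ^ 2 := by positivity
    have h4 : ((∑' l, p₁ l * g (k - l)) + ∑' l, A l * q₂ (k - l)) ^ 2 ≤
        2 * ((∑' l, p₁ l * g (k - l)) ^ 2 + (∑' l, A l * q₂ (k - l)) ^ 2) := by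
      nlinarith [_root_.sq_nonneg ((∑' l, p₁ l * g (k - l)) - ∑' l, A l * q₂ (k - l))]
    calc ((2 : ℝ) ^ (s - 2)) ^ 2 * ((∑' l, p₁ l * g (k - l)) + ∑' l, A l * q₂ (k - l)) ^ 2
        ≤ ((2 : ℝ) ^ (s - 2)) ^ 2 *
          (2 * ((∑' l, p₁ l * g (k - l)) ^ 2 + (∑' l, A l * q₂ (k - l)) ^ 2)) :=
          mul_le_mul_of_nonneg_left h4 h3
      _ = _ := by ring
  have hS : Summable fun k => 2 * ((2 : ℝ) ^ (s - 2)) ^ 2 * ((∑' l, p₁ l * g (k - l)) ^ 2 +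
        (∑' l, A l * q₂ (k - l)) ^ 2) := (hY1s.add hY2s).mul_left _
  have hmem : MemS (s - 2) (dot u f) :=
    Summable.of_nonneg_of_le (fun k => mul_nonneg (wpos _ k).le (_root_.sq_nonneg _)) hsq hS
  refine ⟨hsum, hmem, ?_⟩
  have h1 : nqS (s - 2) (dot u f) ≤ 2 * ((2 : ℝ) ^ (s - 2)) ^ 2 *
      ((∑' k, (∑' l, p₁ l * g (k - l)) ^ 2) + ∑' k, (∑' l, A l * q₂ (k - l)) ^ 2) := by
    rw [← hY1s.tsum_add hY2s, ← tsum_mul_left]
    exact Summable.tsum_le_tsum hsq hmem hS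
  have h2 : (∑' k, (∑' l, p₁ l * g (k - l)) ^ 2) ≤ 2 * cW * nsq s u * nqS 2 f :=
    hY1b.trans (mul_le_mul hL1.2 hG1.2 (tsum_nonneg fun p => _root_.sq_nonneg _)
      (mul_nonneg (by positivity) (hN0 s u)))
  have h3 : (∑' k, (∑' l, A l * q₂ (k - l)) ^ 2) ≤ 2 * cW * nsq 2 u * nqS s f :=
    hY2b.trans (mul_le_mul hL2.2 hG2.2 (tsum_nonneg fun p => _root_.sq_nonneg _)
      (mul_nonneg (by positivity) (hN0 2 u)))
  refine h1.trans ?_
  have h4 : 0 ≤ 2 * ((2 : ℝ) ^ (s - 2)) ^ 2 := by positivity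
  have h5 : 0 ≤ nsq s u * nqS 2 f + nsq 2 u * nqS s f :=
    add_nonneg (mul_nonneg (hN0 _ _) (hn0 _ _)) (mul_nonneg (hN0 _ _) (hn0 _ _))
  calc 2 * ((2 : ℝ) ^ (s - 2)) ^ 2 *
      ((∑' k, (∑' l, p₁ l * g (k - l)) ^ 2) + ∑' k, (∑' l, A l * q₂ (k - l)) ^ 2)
      ≤ 2 * ((2 : ℝ) ^ (s - 2)) ^ 2 *
        (2 * cW * nsq s u * nqS 2 f + 2 * cW * nsq 2 u * nqS s f) :=
        mul_le_mul_of_nonneg_left (add_le_add h2 h3) h4
    _ ≤ (4 * ((2 : ℝ) ^ (s - 2)) ^ 2 * cW + 1) * (nsq s u * nqS 2 f + nsq 2 u * nqS s f) := by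
        linarith

end HB
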